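import Mathlib
import Pool.Agent.H137R4.JN.Main

/-!
# Near-extremal joints configurations need not be near generic-plane configurations

For `N ≥ 2` take the `N²` planes `x₀ + t x₁ + t² x₂ = t³ + a / (4 N)`, `0 ≤ t, a < N` (`N` parallel
planes in each of `N` directions), and let `L` be the set of all intersection lines of two
non-parallel ones.  No four of these planes meet (a divided difference of a cubic at four integers
is `1`, that of the shifts is less than `1`), three planes with different `t` meet in one point, and
different such triples give different points.  Hence `L` has `n = N² · N (N - 1) / 2` lines and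
exactly `N³ · N (N - 1) (N - 2) / 6 = (√2 / 3 + o(1)) n^{3/2}` joints.

A generic set `H` of planes contains at most `N` of the `N²` planes, because no two of its planes are
parallel.  A plane outside the family contains at most `N` lines of `L`: two lines of `L` in it that
meet would lie in a common plane of the family, so all of them are parallel, and then they are
intersections of planes of the same two parallel classes.  So `L` and `L(H)` have at most
`N² + |H| N` common lines, while `L(H)` has `|H| (|H| - 1) / 2` lines, and
`|L △ L(H)| ≥ n - 4 N² - N - 1`.
-/

namespace Pool.Agent.Results.MP_a8d5c3_co.NotNearGeneric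

open Filter Topology H137JN
open scoped Classical

/-- There are sets `L k` of lines in `ℝ³` with `|L k| → ∞` and `(√2/3 + o(1)) |L k|^{3/2}` joints
such that no generic-plane configuration `L(H)` is closer to `L k` than `(1 - o(1)) |L k|`. -/
theorem result :
    ∃ L : ℕ → Finset (AffineSubspace ℝ Pt),
      (∀ k, ∀ l ∈ L k, IsLine l) ∧
      Tendsto (fun k => ((L k).card : ℝ)) atTop atTop ∧
      Tendsto (fun k => (numJoints (L k) : ℝ) / ((L k).card : ℝ) ^ (3 / 2 : ℝ)) atTop
        (𝓝 (Real.sqrt 2 / 3)) ∧
      ∀ η : ℝ, 0 < η → ∀ᶠ k in atTop, ∀ H : Finset (AffineSubspace ℝ Pt), GenericPlanes H →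
        (1 - η) * ((L k).card : ℝ) ≤ ((symmDiff (L k) (planeLines H)).card : ℝ) := by
  refine ⟨fun k => LL (k + 2), ?_, card_tendsto, ratio_tendsto, fun η hη => far η hη⟩
  intro k l hl
  obtain ⟨x, hx, rfl⟩ := Finset.mem_image.1 hl
  exact isLine_line hx

end Pool.Agent.Results.MP_a8d5c3_co.NotNearGeneric
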